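import Pool.Agent.TH280.DH.Stm

/-! Job 5702: `S_HARM` of `Pool.Agent.TH280.DH.Stm`. -/

set_option autoImplicit false

namespace Pool.Agent.TH633.DH

open Pool.Agent.TH280.DH Complex Polynomial Filter Topology

/-- `cz` as a continuous linear map -/
noncomputable def czL : E2 →L[ℝ] ℂ :=
  LinearMap.toContinuousLinearMap
    { toFun := cz
      map_add' := by
        intro x y
        simp only [cz, PiLp.add_apply, Complex.ofReal_add]
        ring
      map_smul' := by
        intro r x
        simp only [cz, PiLp.smul_apply, smul_eq_mul, Complex.ofReal_mul, RingHom.id_apply,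
          Complex.real_smul]
        ring }

lemma czL_apply (x : E2) : czL x = cz x := rfl

lemma czL_zero : czL (EuclideanSpace.single 0 (1 : ℝ)) = 1 := by
  simp [czL_apply, cz]

lemma czL_one : czL (EuclideanSpace.single 1 (1 : ℝ)) = Complex.I := by
  simp [czL_apply, cz]

/-- derivative of a component -/
noncomputable def cL (p : ℂ[X]) (x : E2) : E2 →L[ℝ] ℝ :=
  Complex.reCLM.comp
    (((ContinuousLinearMap.toSpanSingleton ℂ ((derivative p).eval (cz x))).restrictScalars ℝ).comp
      czL)

lemma cL_apply (p : ℂ[X]) (x v : E2) : cL p x v = (czL v * (derivative p).eval (cz x)).re := by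
  simp [cL]

lemma has_c (p : ℂ[X]) (x : E2) : HasFDerivAt (fun y => (p.eval (cz y)).re) (cL p x) x := by
  have h1 : HasFDerivAt (fun z => p.eval z)
      ((ContinuousLinearMap.toSpanSingleton ℂ ((derivative p).eval (cz x))).restrictScalars ℝ)
      (cz x) := ((p.hasDerivAt (cz x)).hasFDerivAt).restrictScalars ℝ
  have h2 : HasFDerivAt cz czL x := czL.hasFDerivAt
  have h3 := h1.comp x h2
  exact Complex.reCLM.hasFDerivAt.comp x h3

variable {ι : Type} [Fintype ι]

/-- derivative of `vec` -/
noncomputable def vL (P : ι → ℂ[X]) (x : E2) : E2 →L[ℝ] EuclideanSpace ℝ ι :=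
  ((EuclideanSpace.equiv ι ℝ).symm : (ι → ℝ) →L[ℝ] EuclideanSpace ℝ ι).comp
    (ContinuousLinearMap.pi fun i => cL (P i) x)

lemma vL_apply (P : ι → ℂ[X]) (x v : E2) (i : ι) : vL P x v i = cL (P i) x v := by
  simp [vL]

lemma has_v (P : ι → ℂ[X]) (x : E2) : HasFDerivAt (vec P) (vL P x) x := by
  have h : HasFDerivAt (fun y => fun i => ((P i).eval (cz y)).re)
      (ContinuousLinearMap.pi fun i => cL (P i) x) x := hasFDerivAt_pi.2 fun i => has_c (P i) x
  exact ((EuclideanSpace.equiv ι ℝ).symm : (ι → ℝ) →L[ℝ] EuclideanSpace ℝ ι).hasFDerivAt.comp x h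

lemma fd_v (P : ι → ℂ[X]) (x : E2) : fderiv ℝ (vec P) x = vL P x := (has_v P x).fderiv

lemma v_zero (P : ι → ℂ[X]) (x : E2) :
    vL P x (EuclideanSpace.single 0 (1 : ℝ)) = vec (fun i => derivative (P i)) x := by
  ext i
  rw [vL_apply, cL_apply, czL_zero, one_mul]
  rfl

lemma v_one (P : ι → ℂ[X]) (x : E2) :
    vL P x (EuclideanSpace.single 1 (1 : ℝ)) = vec (fun i => C Complex.I * derivative (P i)) x := by
  ext i
  rw [vL_apply, cL_apply, czL_one]
  simp [vec]

lemma contDiff_vec (P : ι → ℂ[X]) : ContDiff ℝ 2 (vec P) := by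
  have h : ContDiff ℝ 2 (fun y : E2 => fun i => ((P i).eval (cz y)).re) := by
    rw [contDiff_pi]
    intro i
    have h1 : ContDiff ℝ 2 (fun z : ℂ => (P i).eval z) :=
      ((P i).differentiable.contDiff (n := 2)).restrict_scalars ℝ
    have h2 : ContDiff ℝ 2 cz := czL.contDiff
    exact Complex.reCLM.contDiff.comp (h1.comp h2)
  exact ((EuclideanSpace.equiv ι ℝ).symm : (ι → ℝ) →L[ℝ] EuclideanSpace ℝ ι).contDiff.comp h

lemma second (P : ι → ℂ[X]) (x v : E2) (Q : ι → ℂ[X]) (hQ : ∀ y, vL P y v = vec Q y) :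
    iteratedFDeriv ℝ 2 (vec P) x ![v, v] = vL Q x v := by
  rw [iteratedFDeriv_two_apply]
  simp only [Matrix.cons_val_zero, Matrix.cons_val_one]
  have hd : DifferentiableAt ℝ (fderiv ℝ (vec P)) x :=
    ((contDiff_vec P).fderiv_right (m := 1) (by norm_num)).differentiable (by norm_num) x
  have h1 : fderiv ℝ (fun y => fderiv ℝ (vec P) y v) x v = fderiv ℝ (fderiv ℝ (vec P)) x v v := by
    have := (hd.hasFDerivAt.clm_apply (hasFDerivAt_const v x)).fderiv
    rw [this]
    simp
  rw [← h1]
  have h2 : (fun y => fderiv ℝ (vec P) y v) = vec Q := by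
    funext y
    rw [fd_v, hQ y]
  rw [h2, fd_v]

theorem main : S_HARM := by
  intro ι _ P
  constructor
  · intro D x _
    refine ⟨(contDiff_vec P).contDiffAt, Filter.Eventually.of_forall fun y => ?_⟩
    rw [InnerProductSpace.laplacian_eq_iteratedFDeriv_orthonormalBasis (vec P)
      (EuclideanSpace.basisFun (Fin 2) ℝ)]
    simp only [Fin.sum_univ_two, EuclideanSpace.basisFun_apply]
    rw [second P y _ _ (v_zero P), second P y _ _ (v_one P), v_zero, v_one]
    ext i
    simp [vec]
  · intro x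
    rw [Fin.sum_univ_two, fd_v, v_zero, v_one, EuclideanSpace.norm_sq_eq, EuclideanSpace.norm_sq_eq,
      ← Finset.sum_add_distrib]
    refine Finset.sum_congr rfl fun i _ => ?_
    rw [← Complex.normSq_eq_norm_sq, Complex.normSq_apply]
    simp [vec]
    ring

end Pool.Agent.TH633.DH
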